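import Pool.Agent.Helper66_KF.Stmts

/-!
# KF_TRM: an involution on a projective lattice whose reduction is free has trace zero
-/

set_option autoImplicit false

open scoped BigOperators

noncomputable section

namespace Pool.Agent.PP.KF.H48

open Pool.Agent.Helper51_AWC Pool.Agent.Helper79_WRA Pool.Agent.PP Pool.Agent.PP.KF

/-- The rank does not increase under reduction. -/
theorem rank_red {R K F : Type*} [CommRing R] [Field K] [Field F] (i : R →+* K)
    (hi : Function.Injective i) (q : R →+* F) (hq : Function.Surjective q) {n : Type*} [Fintype n]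
    [DecidableEq n] (A : Matrix n n R) : (A.map q).rank ≤ (A.map i).rank := by
  classical
  set f : (n → F) →ₗ[F] (n → F) := (A.map q).mulVecLin with hf
  set r : ℕ := (A.map q).rank with hr
  have hr' : Module.finrank F (LinearMap.range f) = r := rfl
  let e : (Fin r → F) ≃ₗ[F] LinearMap.range f :=
    LinearEquiv.ofFinrankEq _ _ (by rw [hr', Module.finrank_fin_fun])
  obtain ⟨g, hg⟩ := LinearMap.exists_rightInverse_of_surjective f.rangeRestrict f.range_rangeRestrict
  let x : (Fin r → F) →ₗ[F] (n → F) := g ∘ₗ e.toLinearMap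
  have hx : f ∘ₗ x = (LinearMap.range f).subtype ∘ₗ e.toLinearMap := by
    ext v j
    have h1 := LinearMap.congr_fun hg (e (Pi.single v 1))
    have h2 := congrArg (fun z : LinearMap.range f => (z : n → F) j) h1
    simpa [x] using h2
  have hinj : LinearMap.ker (f ∘ₗ x) = ⊥ := by
    rw [hx]
    refine LinearMap.ker_eq_bot.2 ?_
    exact (Submodule.subtype_injective _).comp e.injective
  obtain ⟨y, hy⟩ := (f ∘ₗ x).exists_leftInverse_of_injective hinj
  -- matrices
  have hXY : LinearMap.toMatrix' y * (A.map q) * LinearMap.toMatrix' x = 1 := by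
    have h1 : LinearMap.toMatrix' (y ∘ₗ f ∘ₗ x) = 1 := by rw [hy, LinearMap.toMatrix'_id]
    rw [LinearMap.toMatrix'_comp, LinearMap.toMatrix'_comp] at h1
    have h2 : LinearMap.toMatrix' f = A.map q := by
      rw [hf, ← Matrix.toLin'_apply', LinearMap.toMatrix'_toLin']
    rw [h2] at h1
    rw [Matrix.mul_assoc]
    exact h1
  choose s hs using hq
  set X : Matrix n (Fin r) R := (LinearMap.toMatrix' x).map s with hX
  set Y : Matrix (Fin r) n R := (LinearMap.toMatrix' y).map s with hY
  have hX1 : X.map q = LinearMap.toMatrix' x := by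
    ext a b
    simp [hX, hs]
  have hY1 : Y.map q = LinearMap.toMatrix' y := by
    ext a b
    simp [hY, hs]
  have hdet : q (Y * A * X).det = 1 := by
    rw [RingHom.map_det, RingHom.mapMatrix_apply, Matrix.map_mul, Matrix.map_mul, hX1, hY1, hXY,
      Matrix.det_one]
  have hdet2 : i (Y * A * X).det ≠ 0 := by
    intro h
    have h0 : (Y * A * X).det = 0 := hi (by rw [h, map_zero])
    rw [h0, map_zero] at hdet
    exact zero_ne_one hdet
  have hU : IsUnit ((Y.map i) * (A.map i) * (X.map i)) := by
    rw [Matrix.isUnit_iff_isUnit_det, isUnit_iff_ne_zero]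
    rw [← Matrix.map_mul, ← Matrix.map_mul, ← RingHom.mapMatrix_apply, ← RingHom.map_det]
    exact hdet2
  have h3 := Matrix.rank_of_isUnit _ hU
  rw [Fintype.card_fin] at h3
  calc r = ((Y.map i) * (A.map i) * (X.map i)).rank := h3.symm
    _ ≤ ((Y.map i) * (A.map i)).rank := Matrix.rank_mul_le_left _ _
    _ ≤ (A.map i).rank := Matrix.rank_mul_le_right _ _

/-- The trace of an idempotent matrix is its rank. -/
theorem trace_idem {n : Type*} [Fintype n] [DecidableEq n] {K : Type*} [Field K] {Q : Matrix n n K}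
    (hQ : Q * Q = Q) : Q.trace = (Q.rank : K) := by
  have h1 : IsIdempotentElem (Matrix.toLin' Q) := by
    unfold IsIdempotentElem
    rw [Module.End.mul_eq_comp, ← Matrix.toLin'_mul, hQ]
  have h2 := (LinearMap.IsIdempotentElem.isProj_range _ h1).trace
  rw [Matrix.trace_toLin'_eq] at h2
  exact h2

/-- rank of an idempotent and of its complement -/
theorem rank_idem_compl {n : Type*} [Fintype n] [DecidableEq n] {K : Type*} [Field K]
    {Q : Matrix n n K} (hQ : Q * Q = Q) : Q.rank + (1 - Q).rank = Fintype.card n := by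
  have h1 := LinearMap.finrank_range_add_finrank_ker Q.mulVecLin
  have h2 : LinearMap.ker Q.mulVecLin = LinearMap.range (1 - Q).mulVecLin := by
    ext v
    rw [LinearMap.mem_ker, LinearMap.mem_range, Matrix.mulVecLin_apply]
    constructor
    · intro h
      refine ⟨v, ?_⟩
      rw [Matrix.mulVecLin_apply, Matrix.sub_mulVec, Matrix.one_mulVec, h, sub_zero]
    · rintro ⟨w, rfl⟩
      rw [Matrix.mulVecLin_apply, Matrix.mulVec_mulVec, Matrix.mul_sub, Matrix.mul_one, hQ, sub_self,
        Matrix.zero_mulVec]
  rw [h2, Module.finrank_fintype_fun_eq_card] at h1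
  exact h1

/-- Over a field of characteristic two: if the kernel of `1 + U` on the image of `P` is contained
in the image of `1 + U` on the image of `P`, then `P` has at most twice the rank of `(1 + U) P`. -/
theorem rank_char2 {n : Type*} [Fintype n] [DecidableEq n] {F : Type*} [Field F] (h2 : (2 : F) = 0)
    {P U : Matrix n n F} (hP : P * P = P)
    (H : ∀ v : n → F, P.mulVec v = v → U.mulVec v = v →
      ∃ w, P.mulVec w = w ∧ v = w + U.mulVec w) : P.rank ≤ 2 * ((1 + U) * P).rank := by
  -- `g = 1 + U` on the range of `P`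
  set V : Submodule F (n → F) := LinearMap.range P.mulVecLin with hV
  have hmem : ∀ v : n → F, v ∈ V ↔ P.mulVec v = v := by
    intro v
    constructor
    · rintro ⟨w, rfl⟩
      rw [Matrix.mulVecLin_apply, Matrix.mulVec_mulVec, hP]
    · intro h
      exact ⟨v, h⟩
  let g : V →ₗ[F] (n → F) := (1 + U).mulVecLin ∘ₗ V.subtype
  have hg : ∀ v : V, g v = (v : n → F) + U.mulVec (v : n → F) := by
    intro v
    change (1 + U).mulVec (v : n → F) = _
    rw [Matrix.add_mulVec, Matrix.one_mulVec]
  have h3 := LinearMap.finrank_range_add_finrank_ker g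
  have hrange : LinearMap.range g = LinearMap.range ((1 + U) * P).mulVecLin := by
    rw [Matrix.mulVecLin_mul, LinearMap.range_comp, LinearMap.range_comp, Submodule.range_subtype]
  have hker : Module.finrank F (LinearMap.ker g) ≤ Module.finrank F (LinearMap.range g) := by
    have h4 : (LinearMap.ker g).map V.subtype ≤ LinearMap.range g := by
      rintro _ ⟨v, hv, rfl⟩
      have hv0 : g v = 0 := hv
      rw [hg] at hv0
      have hv1 : U.mulVec (v : n → F) = v := by
        funext j
        have h5 := congrFun hv0 j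
        rw [Pi.add_apply, Pi.zero_apply] at h5
        have h6 : (v : n → F) j + (v : n → F) j = 0 := by
          rw [← two_mul, h2, zero_mul]
        exact add_left_cancel (h5.trans h6.symm)
      obtain ⟨w, hw1, hw2⟩ := H v ((hmem _).1 v.2) hv1
      exact ⟨⟨w, (hmem w).2 hw1⟩, (hg _).trans hw2.symm⟩
    have h5 := Submodule.finrank_mono h4
    rwa [LinearEquiv.finrank_eq (Submodule.equivMapOfInjective V.subtype
      (Submodule.subtype_injective V) (LinearMap.ker g)).symm] at h5
  have h6 : Module.finrank F V = P.rank := rfl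
  have h7 : Module.finrank F (LinearMap.range g) = ((1 + U) * P).rank := by
    rw [hrange]
    rfl
  omega

theorem trm : TrmStmt := by
  intro M hM h2M n _ _ P U hPR hUR hP hU hUP H
  classical
  let _ : Field (FF M) := Ideal.Quotient.field M
  -- matrices over the local ring
  let P' : Matrix n n (RM M) := fun i j => ⟨P i j, hPR i j⟩
  let U' : Matrix n n (RM M) := fun i j => ⟨U i j, hUR i j⟩
  let ι : RM M →+* ℂ := (RM M).subtype
  have hι : Function.Injective ι := Subtype.val_injective
  have hq : Function.Surjective (rrHom M) := by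
    intro c
    obtain ⟨z, hz, h⟩ := rr_surj c
    exact ⟨⟨z, hz⟩, h⟩
  have eP : P'.map ι = P := rfl
  have eU : U'.map ι = U := rfl
  have fP : P'.map (rrHom M) = P.map (rr M) := rfl
  have fU : U'.map (rrHom M) = U.map (rr M) := rfl
  have hinjM : Function.Injective fun A : Matrix n n (RM M) => A.map ι := by
    intro A B h
    ext i j
    exact congrFun (congrFun h i) j
  have hP' : P' * P' = P' := by
    apply hinjM
    change (P' * P').map ι = P'.map ι
    rw [Matrix.map_mul, eP, hP]
  set Pb : Matrix n n (FF M) := P'.map (rrHom M) with hPb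
  set Ub : Matrix n n (FF M) := U'.map (rrHom M) with hUb
  have hPb1 : Pb * Pb = Pb := by rw [hPb, ← Matrix.map_mul, hP']
  have h2 : (2 : FF M) = 0 := by
    have := Ideal.Quotient.eq_zero_iff_mem.2 h2M
    rwa [map_ofNat] at this
  -- ranks
  have a1 : Pb.rank ≤ P.rank := by rw [← eP]; exact rank_red ι hι (rrHom M) hq P'
  have a2 : (1 - Pb).rank ≤ (1 - P).rank := by
    have := rank_red ι hι (rrHom M) hq (1 - P')
    rw [Matrix.map_sub _ (map_sub _), Matrix.map_sub _ (map_sub _), Matrix.map_one _ (map_zero ι)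
      (map_one ι), Matrix.map_one _ (map_zero _) (map_one _)] at this
    exact this
  have a3 := rank_idem_compl hPb1
  have a4 := rank_idem_compl hP
  have a5 : P.rank = Pb.rank := by omega
  have a6 : Pb.rank ≤ 2 * ((1 + Ub) * Pb).rank := rank_char2 h2 hPb1 H
  have a7 : ((1 + Ub) * Pb).rank ≤ ((1 + U) * P).rank := by
    have := rank_red ι hι (rrHom M) hq ((1 + U') * P')
    rw [Matrix.map_mul, Matrix.map_mul, Matrix.map_add _ (map_add _), Matrix.map_add _ (map_add _),
      Matrix.map_one _ (map_zero ι) (map_one ι), Matrix.map_one _ (map_zero _) (map_one _)] at this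
    exact this
  have a8 : ((1 + Ub) * Pb).rank ≤ ((1 - U) * P).rank := by
    have := rank_red ι hι (rrHom M) hq ((1 - U') * P')
    rw [Matrix.map_mul, Matrix.map_mul, Matrix.map_sub _ (map_sub _), Matrix.map_sub _ (map_sub _),
      Matrix.map_one _ (map_zero ι) (map_one ι), Matrix.map_one _ (map_zero _) (map_one _)] at this
    have e : (1 : Matrix n n (FF M)) - Ub = 1 + Ub := by
      rw [sub_eq_add_neg]
      refine congrArg _ ?_
      ext i j
      have h5 : Ub i j + Ub i j = 0 := by rw [← two_mul, h2, zero_mul]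
      exact (neg_eq_of_add_eq_zero_left h5)
    rw [← e]
    exact this
  -- the two idempotents
  have b1 : ((1 / 2 : ℂ) • ((1 + U) * P)) * ((1 / 2 : ℂ) • ((1 + U) * P)) =
      (1 / 2 : ℂ) • ((1 + U) * P) := by
    have e : ((1 + U) * P) * ((1 + U) * P) = (2 : ℂ) • ((1 + U) * P) := by
      calc ((1 + U) * P) * ((1 + U) * P) = (1 + U) * ((P + P * U) * P) := by noncomm_ring
        _ = (1 + U) * ((P + U * P) * P) := by rw [hUP]
        _ = (1 + U + U + U * U) * (P * P) := by noncomm_ring
        _ = (2 : ℂ) • ((1 + U) * P) := by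
          rw [hU, hP, two_smul]
          noncomm_ring
    rw [Matrix.smul_mul, Matrix.mul_smul, e, smul_smul, smul_smul]
    norm_num
  have b2 : ((1 / 2 : ℂ) • ((1 - U) * P)) * ((1 / 2 : ℂ) • ((1 - U) * P)) =
      (1 / 2 : ℂ) • ((1 - U) * P) := by
    have e : ((1 - U) * P) * ((1 - U) * P) = (2 : ℂ) • ((1 - U) * P) := by
      calc ((1 - U) * P) * ((1 - U) * P) = (1 - U) * ((P - P * U) * P) := by noncomm_ring
        _ = (1 - U) * ((P - U * P) * P) := by rw [hUP]
        _ = (1 - U - U + U * U) * (P * P) := by noncomm_ring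
        _ = (2 : ℂ) • ((1 - U) * P) := by
          rw [hU, hP, two_smul]
          noncomm_ring
    rw [Matrix.smul_mul, Matrix.mul_smul, e, smul_smul, smul_smul]
    norm_num
  have c1 := trace_idem b1
  have c2 := trace_idem b2
  have c3 := trace_idem hP
  have d1 : ((1 / 2 : ℂ) • ((1 + U) * P)).rank = ((1 + U) * P).rank :=
    Matrix.rank_smul_of_mem_nonZeroDivisors _ (mem_nonZeroDivisors_of_ne_zero (by norm_num))
  have d2 : ((1 / 2 : ℂ) • ((1 - U) * P)).rank = ((1 - U) * P).rank :=
    Matrix.rank_smul_of_mem_nonZeroDivisors _ (mem_nonZeroDivisors_of_ne_zero (by norm_num))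
  rw [d1] at c1
  rw [d2] at c2
  have e1 : (1 / 2 : ℂ) • ((1 + U) * P) + (1 / 2 : ℂ) • ((1 - U) * P) = P := by
    rw [← smul_add]
    have : (1 + U) * P + (1 - U) * P = (2 : ℂ) • P := by
      rw [two_smul]
      noncomm_ring
    rw [this, smul_smul]
    norm_num
  have e2 : (1 / 2 : ℂ) • ((1 + U) * P) - (1 / 2 : ℂ) • ((1 - U) * P) = U * P := by
    rw [← smul_sub]
    have : (1 + U) * P - (1 - U) * P = (2 : ℂ) • (U * P) := by
      rw [two_smul]
      noncomm_ring
    rw [this, smul_smul]
    norm_num
  have e3 : (((1 + U) * P).rank : ℂ) + (((1 - U) * P).rank : ℂ) = (P.rank : ℂ) := by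
    rw [← c1, ← c2, ← c3, ← Matrix.trace_add, e1]
  have e4 : ((1 + U) * P).rank + ((1 - U) * P).rank = P.rank := by exact_mod_cast e3
  have e5 : ((1 + U) * P).rank = ((1 - U) * P).rank := by omega
  rw [← e2, Matrix.trace_sub, c1, c2, e5, sub_self]

end Pool.Agent.PP.KF.H48
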